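import Pool.Agent.Helper38.FF.Places

/-!
# Places of a function field and primes of a Dedekind domain
-/

namespace FFPlaces

open Real IsDedekindDomain NNReal

theorem real_exp_zpow (x : ℝ) (n : ℤ) : Real.exp x ^ n = Real.exp (n * x) := by
  rw [← Real.rpow_intCast, ← Real.exp_mul, mul_comm]

/-- the base `e` as a nonnegative real -/
noncomputable def expNN : ℝ≥0 := ⟨Real.exp 1, (Real.exp_pos 1).le⟩

theorem one_lt_expNN : 1 < expNN := by
  rw [← NNReal.coe_lt_coe]
  show (1 : ℝ) < Real.exp 1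
  rw [Real.one_lt_exp_iff]
  norm_num

theorem coe_expNN_zpow (n : ℤ) : ((expNN ^ n : ℝ≥0) : ℝ) = Real.exp n := by
  rw [NNReal.coe_zpow]
  show (Real.exp 1) ^ n = Real.exp n
  rw [real_exp_zpow, mul_one]

variable {k κ S : Type*} [Field k] [Field κ] [Algebra k κ] [CommRing S] [IsDedekindDomain S]
  [Algebra S κ] [IsFractionRing S κ]

/-- the absolute value attached to a height one prime -/
noncomputable def primeAbv (κ : Type*) [Field κ] [Algebra S κ] [IsFractionRing S κ]
    (P : HeightOneSpectrum S) : AbsoluteValue κ ℝ :=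
  P.adicAbv one_lt_expNN

theorem primeAbv_eq_exp (P : HeightOneSpectrum S) {y : κ} {n : ℤ}
    (h : P.valuation κ y = WithZero.exp n) : primeAbv κ P y = Real.exp n := by
  have h1 : primeAbv κ P y =
      ((WithZeroMulInt.toNNReal (ne_zero_of_lt one_lt_expNN) (P.valuation κ y) : ℝ≥0) : ℝ) := rfl
  rw [h1, h, WithZeroMulInt.toNNReal_neg_apply _ (WithZero.exp_ne_zero)]
  rw [← coe_expNN_zpow n]
  rfl

theorem primeAbv_le_one_iff (P : HeightOneSpectrum S) (y : κ) :
    primeAbv κ P y ≤ 1 ↔ P.valuation κ y ≤ 1 := by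
  have h1 : primeAbv κ P y =
      ((WithZeroMulInt.toNNReal (ne_zero_of_lt one_lt_expNN) (P.valuation κ y) : ℝ≥0) : ℝ) := rfl
  rw [h1, ← WithZeroMulInt.toNNReal_le_one_iff one_lt_expNN, ← NNReal.coe_one, NNReal.coe_le_coe]

theorem primeAbv_algebraMap_lt_one_iff (P : HeightOneSpectrum S) (a : S) :
    primeAbv κ P (algebraMap S κ a) < 1 ↔ a ∈ P.asIdeal :=
  P.adicAbv_coe_lt_one_iff one_lt_expNN a

theorem primeAbv_algebraMap_le_one (P : HeightOneSpectrum S) (a : S) :
    primeAbv κ P (algebraMap S κ a) ≤ 1 :=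
  P.adicAbv_coe_le_one one_lt_expNN a

theorem isPlace_primeAbv [Algebra k S] [IsScalarTower k S κ] (P : HeightOneSpectrum S) :
    IsPlace k κ (primeAbv κ P) where
  nonarch := P.isNonarchimedean_adicAbv one_lt_expNN
  apply_algebraMap_le c := by
    rw [IsScalarTower.algebraMap_apply k S κ]
    exact primeAbv_algebraMap_le_one P _
  exists_int x hx := by
    have h0 : P.valuation κ x ≠ 0 := (Valuation.ne_zero_iff _).mpr hx
    refine ⟨(P.valuation κ x).log, primeAbv_eq_exp P ?_⟩
    rw [WithZero.exp_log h0]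
  exists_unif := by
    obtain ⟨ϖ, hϖ⟩ := P.valuation_exists_uniformizer κ
    exact ⟨ϖ, by simpa using primeAbv_eq_exp P hϖ⟩

/-- A place with the valuation ring containing `S` and centre `P` is the `P`-adic one. -/
theorem IsPlace.eq_primeAbv {v : AbsoluteValue κ ℝ} (hv : IsPlace k κ v)
    (hS : ∀ a : S, v (algebraMap S κ a) ≤ 1) (P : HeightOneSpectrum S)
    (hP : ∀ a : S, v (algebraMap S κ a) < 1 ↔ a ∈ P.asIdeal) : v = primeAbv κ P := by
  -- the valuation ring of `P` is contained in that of `v`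
  have h1 : ∀ y : κ, P.valuation κ y ≤ 1 → v y ≤ 1 := by
    intro y hy
    obtain ⟨n, d, hnd⟩ := P.exists_primeCompl_mul_eq_of_integer y hy
    have hd : v (algebraMap S κ d) = 1 := by
      refine le_antisymm (hS _) (not_lt.mp fun h => ?_)
      exact d.2 ((hP _).mp h)
    have := congrArg v hnd
    rw [map_mul, hd, mul_one] at this
    rw [this]
    exact hS n
  have h2 : ∀ y : κ, P.valuation κ y = 1 → v y = 1 := by
    intro y hy
    refine le_antisymm (h1 y hy.le) ?_
    have hy0 : y ≠ 0 := by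
      rintro rfl
      simp at hy
    have h3 : v y⁻¹ ≤ 1 := h1 y⁻¹ (by rw [map_inv₀, hy, inv_one])
    rw [map_inv₀] at h3
    have h4 : 0 < v y := v.pos hy0
    exact (inv_le_one₀ h4).mp h3
  obtain ⟨ϖ, hϖ⟩ := P.valuation_exists_uniformizer κ
  have hϖ0 : ϖ ≠ 0 := by
    rintro rfl
    rw [map_zero] at hϖ
    exact WithZero.exp_ne_zero hϖ.symm
  obtain ⟨m, hm⟩ := hv.exists_int ϖ hϖ0
  -- `v y = exp (m * -ord y)`
  have h3 : ∀ (y : κ) (n : ℤ), P.valuation κ y = WithZero.exp n → v y = Real.exp (-(m * n)) := by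
    intro y n hn
    have h4 : P.valuation κ (y * ϖ ^ n) = 1 := by
      rw [map_mul, map_zpow₀, hn, hϖ, ← WithZero.exp_zsmul, ← WithZero.exp_add]
      simp
    have h5 := h2 _ h4
    rw [map_mul, map_zpow₀, hm, real_exp_zpow] at h5
    rw [Real.exp_neg]
    rw [mul_comm (n : ℝ)] at h5
    exact eq_inv_of_mul_eq_one_left h5
  have hm1 : m = -1 := by
    have h4 : m ≤ 0 := by
      have := h1 ϖ (by rw [hϖ]; decide)
      rw [hm, Real.exp_le_one_iff] at this
      exact_mod_cast this
    obtain ⟨t, ht⟩ := hv.exists_unif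
    have ht0 : t ≠ 0 := by
      rintro rfl
      rw [map_zero] at ht
      exact (Real.exp_pos _).ne ht
    have h5 := h3 t (P.valuation κ t).log
      (by rw [WithZero.exp_log ((Valuation.ne_zero_iff _).mpr ht0)])
    rw [ht, Real.exp_eq_exp] at h5
    have h6 : m * (P.valuation κ t).log = 1 := by
      have : (m : ℝ) * ((P.valuation κ t).log : ℤ) = 1 := by linarith
      exact_mod_cast this
    rcases Int.isUnit_iff.mp (IsUnit.of_mul_eq_one _ h6) with h | h
    · omega
    · exact h
  ext y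
  rcases eq_or_ne y 0 with rfl | hy
  · simp
  have h0 : P.valuation κ y ≠ 0 := (Valuation.ne_zero_iff _).mpr hy
  have h4 : P.valuation κ y = WithZero.exp (P.valuation κ y).log := by rw [WithZero.exp_log h0]
  rw [h3 y _ h4, primeAbv_eq_exp P h4, hm1]
  simp

theorem neg_log_primeAbv_algebraMap (P : HeightOneSpectrum S) {a : S} (ha : a ≠ 0) :
    -Real.log (primeAbv κ P (algebraMap S κ a)) =
      (multiplicity P.asIdeal (Ideal.span {a}) : ℝ) := by
  have h : P.valuation κ (algebraMap S κ a) =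
      WithZero.exp (-multiplicity P.asIdeal (Ideal.span {a}) : ℤ) := by
    rw [P.valuation_of_algebraMap, P.intValuation_eq_exp_neg_multiplicity ha]
  rw [primeAbv_eq_exp P h, Real.log_exp]
  push_cast
  ring

end FFPlaces
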