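import Pool.Agent.Helper38.FF.Insep

/-!
# The degree formula, the product formula and the height of a function
-/

namespace FFPlaces

open IntermediateField Polynomial

variable {k κ : Type*} [Field k] [Field κ] [Algebra k κ]

/-- degree of `κ` over the field generated by a rational function of a transcendental element -/
theorem finrank_adjoin_ratFunc {y : κ} (hy : Transcendental k y) (r : RatFunc k) :
    Module.finrank k⟮((RatFunc.algEquivOfTranscendental y hy r : k⟮y⟯) : κ)⟯ κ =
      max r.num.natDegree r.denom.natDegree * Module.finrank k⟮y⟯ κ := by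
  let φ : RatFunc k →ₐ[k] κ := (k⟮y⟯.val).comp (RatFunc.algEquivOfTranscendental y hy).toAlgHom
  have h1 : (⊤ : IntermediateField k (RatFunc k)).map φ = k⟮y⟯ := by
    rw [← RatFunc.adjoin_X, adjoin_map, Set.image_singleton]
    congr 2
    exact RatFunc.algEquivOfTranscendental_X y hy
  have h2 : (k⟮r⟯).map φ = k⟮((RatFunc.algEquivOfTranscendental y hy r : k⟮y⟯) : κ)⟯ := by
    rw [adjoin_map, Set.image_singleton]
    rfl
  have h3 : k⟮((RatFunc.algEquivOfTranscendental y hy r : k⟮y⟯) : κ)⟯ ≤ k⟮y⟯ := by
    rw [adjoin_simple_le_iff]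
    exact (RatFunc.algEquivOfTranscendental y hy r).2
  rw [← relfinrank_mul_finrank_top h3, ← h2]
  congr 1
  conv_lhs => rw [← h1]
  rw [relfinrank_map_map, relfinrank_top_right, RatFunc.finrank_eq_max_natDegree]

theorem finrank_adjoin_aeval {y : κ} (hy : Transcendental k y) (f : k[X]) :
    Module.finrank k⟮aeval y f⟯ κ = f.natDegree * Module.finrank k⟮y⟯ κ := by
  have h := finrank_adjoin_ratFunc hy (algebraMap k[X] (RatFunc k) f)
  rw [RatFunc.algEquivOfTranscendental_algebraMap, RatFunc.num_algebraMap,
    RatFunc.denom_algebraMap, natDegree_one, Nat.max_zero] at h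
  rw [← h]
  have h1 : ((aeval (AdjoinSimple.gen k y) f : k⟮y⟯) : κ) = aeval y f :=
    (Polynomial.aeval_algHom_apply (k⟮y⟯.val) (AdjoinSimple.gen k y) f).symm
  rw [h1]

theorem finrank_adjoin_pow {y : κ} (hy : Transcendental k y) (n : ℕ) :
    Module.finrank k⟮y ^ n⟯ κ = n * Module.finrank k⟮y⟯ κ := by
  have h := finrank_adjoin_aeval hy (X ^ n : k[X])
  rwa [map_pow, aeval_X, natDegree_X_pow] at h

theorem transcendental_of_pow {y : κ} {n : ℕ} (h : Transcendental k (y ^ n)) :
    Transcendental k y := fun hy => h (hy.pow n)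

/-- a transcendental element of a curve field generates a subfield of finite (positive) index -/
theorem finrank_adjoin_pos [IsCurveField k κ] {x : κ} (hx : Transcendental k x) :
    0 < Module.finrank k⟮x⟯ κ := by
  have := IsCurveField.finite_adjoin hx
  exact Module.finrank_pos

/-- **Degree formula.**  The number of zeros of `x`, counted with multiplicity, is
`[κ : k(x)]`. -/
theorem degree_formula [IsAlgClosed k] [IsCurveField k κ] (x : κ) (hx : Transcendental k x) :
    ∃ s : Finset (AbsoluteValue κ ℝ), (∀ v, v ∈ s ↔ IsPlace k κ v ∧ v x < 1) ∧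
      ∑ v ∈ s, -Real.log (v x) = Module.finrank k⟮x⟯ κ := by
  obtain ⟨p, hpk⟩ := CharP.exists k
  induction h : Module.finrank k⟮x⟯ κ using Nat.strong_induction_on generalizing x with
  | _ n ih =>
  have hfin := IsCurveField.finite_adjoin hx
  rcases CharP.char_is_prime_or_zero k p with hp | hp
  · have : Fact p.Prime := ⟨hp⟩
    by_cases hxp : ∃ y : κ, y ^ p = x
    · obtain ⟨y, rfl⟩ := hxp
      have hy := transcendental_of_pow hx
      have h1 := finrank_adjoin_pow hy p
      have h2 := finrank_adjoin_pos hy
      obtain ⟨s, hs, hsum⟩ := ih (Module.finrank k⟮y⟯ κ) (by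
        rw [← h, h1]
        nlinarith [hp.two_le]) y hy rfl
      refine ⟨s, fun v => ?_, ?_⟩
      · rw [hs v, map_pow]
        constructor
        · rintro ⟨hv, hvy⟩
          exact ⟨hv, pow_lt_one₀ (v.nonneg _) hvy hp.ne_zero⟩
        · rintro ⟨hv, hvy⟩
          refine ⟨hv, ?_⟩
          by_contra hcon
          rw [not_lt] at hcon
          exact absurd hvy (not_lt.mpr (one_le_pow₀ hcon))
      · rw [← h, h1]
        push_cast
        rw [← hsum, Finset.mul_sum]
        refine Finset.sum_congr rfl fun v _ => ?_
        rw [map_pow, Real.log_pow]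
        ring
    · push Not at hxp
      have := isSeparable_of_not_pow p hx hxp
      rw [← h]
      exact separable_formula x hx
  · subst hp
    have : CharZero k := CharP.charP_to_charZero k
    have : Algebra.IsSeparable k⟮x⟯ κ := inferInstance
    rw [← h]
    exact separable_formula x hx

end FFPlaces
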