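import Pool.Agent.Helper38.FF.Degree

/-!
# Product formula and heights on a function field of one variable
-/

namespace FFPlaces

open IntermediateField Polynomial Function

variable {k κ : Type*} [Field k] [Field κ] [Algebra k κ]

theorem transcendental_inv {x : κ} (hx : Transcendental k x) : Transcendental k x⁻¹ := by
  intro h
  exact hx (by simpa using h.inv)

theorem adjoin_inv (x : κ) : k⟮x⁻¹⟯ = k⟮x⟯ := by
  apply le_antisymm
  · rw [adjoin_simple_le_iff]
    exact inv_mem (mem_adjoin_simple_self k x)
  · rw [adjoin_simple_le_iff]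
    have := inv_mem (mem_adjoin_simple_self k x⁻¹)
    rwa [inv_inv] at this

/-- over an algebraically closed field, an element is either constant or transcendental -/
theorem eq_algebraMap_or_transcendental [IsAlgClosed k] (x : κ) :
    (∃ c : k, x = algebraMap k κ c) ∨ Transcendental k x := by
  by_cases hx : IsAlgebraic k x
  · left
    have hint := hx.isIntegral
    have h1 : (minpoly k x).degree = 1 := IsAlgClosed.degree_eq_one_of_irreducible k
      (minpoly.irreducible hint)
    obtain ⟨c, hc⟩ := minpoly.mem_range_of_degree_eq_one k x h1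
    exact ⟨c, hc.symm⟩
  · exact Or.inr hx

/-- the set of zeros of `x` -/
theorem exists_zeros [IsAlgClosed k] [IsCurveField k κ] {x : κ} (hx : x ≠ 0) :
    ∃ s : Finset (AbsoluteValue κ ℝ), (∀ v, v ∈ s ↔ IsPlace k κ v ∧ v x < 1) := by
  rcases eq_algebraMap_or_transcendental (k := k) x with ⟨c, rfl⟩ | hx'
  · refine ⟨∅, fun v => ⟨fun h => absurd h (Finset.notMem_empty v), fun h => ?_⟩⟩
    have hc : c ≠ 0 := by
      rintro rfl
      exact hx (map_zero _)
    rw [h.1.apply_algebraMap hc] at h
    exact absurd h.2 (lt_irrefl _)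
  · obtain ⟨s, hs, -⟩ := degree_formula x hx'
    exact ⟨s, hs⟩

theorem finite_ne_one [IsAlgClosed k] [IsCurveField k κ] {x : κ} (hx : x ≠ 0) :
    {v | IsPlace k κ v ∧ v x ≠ 1}.Finite := by
  obtain ⟨s, hs⟩ := exists_zeros (k := k) hx
  obtain ⟨s', hs'⟩ := exists_zeros (k := k) (inv_ne_zero hx)
  refine (s.finite_toSet.union s'.finite_toSet).subset ?_
  rintro v ⟨hv, hv1⟩
  rcases lt_or_gt_of_ne hv1 with h | h
  · exact Or.inl ((hs v).mpr ⟨hv, h⟩)
  · refine Or.inr ((hs' v).mpr ⟨hv, ?_⟩)
    rw [map_inv₀]
    exact inv_lt_one_of_one_lt₀ h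

theorem hasFiniteMulSupport_places [IsAlgClosed k] [IsCurveField k κ] {x : κ} (hx : x ≠ 0) :
    (fun v : places k κ => v.val x).HasFiniteMulSupport := by
  have h := finite_ne_one (k := k) hx
  have h1 : (fun v : places k κ => v.val x).mulSupport ⊆
      Subtype.val ⁻¹' {v | IsPlace k κ v ∧ v x ≠ 1} := by
    intro v hv
    exact ⟨v.2, hv⟩
  exact (h.preimage Subtype.val_injective.injOn).subset h1

/-- the degree formula as a `finsum` over all places -/
theorem finsum_posLog_inv [IsAlgClosed k] [IsCurveField k κ] {x : κ} (hx : Transcendental k x) :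
    ∑ᶠ v : places k κ, Real.posLog (v.val x⁻¹) = Module.finrank k⟮x⟯ κ := by
  classical
  have hx0 : x ≠ 0 := by
    rintro rfl
    exact hx isAlgebraic_zero
  obtain ⟨s, hs, hsum⟩ := degree_formula x hx
  let s' : Finset (places k κ) := s.subtype (fun v => v ∈ places k κ)
  have h1 : (fun v : places k κ => Real.posLog (v.val x⁻¹)).support ⊆ s' := by
    intro v hv
    rw [Finset.mem_coe, Finset.mem_subtype, hs]
    refine ⟨v.2, ?_⟩
    by_contra hcon
    rw [not_lt] at hcon
    refine hv ?_
    show Real.posLog (v.val x⁻¹) = 0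
    rw [Real.posLog_eq_zero_iff, map_inv₀, abs_of_nonneg (inv_nonneg.mpr (v.val.nonneg _))]
    exact inv_le_one_of_one_le₀ hcon
  rw [finsum_eq_sum_of_support_subset _ h1, ← hsum]
  have h2 : s'.map (Function.Embedding.subtype _) = s := by
    rw [Finset.subtype_map, Finset.filter_eq_self]
    intro v hv
    exact ((hs v).mp hv).1
  rw [← h2, Finset.sum_map]
  refine Finset.sum_congr rfl fun v hv => ?_
  rw [Finset.mem_subtype, hs] at hv
  rw [Function.Embedding.subtype_apply, Real.posLog_eq_log, map_inv₀, Real.log_inv]
  rw [map_inv₀, abs_of_nonneg (inv_nonneg.mpr (v.val.nonneg _))]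
  exact (one_le_inv₀ (v.val.pos hx0)).mpr hv.2.le

theorem finsum_posLog [IsAlgClosed k] [IsCurveField k κ] {x : κ} (hx : Transcendental k x) :
    ∑ᶠ v : places k κ, Real.posLog (v.val x) = Module.finrank k⟮x⟯ κ := by
  have h := finsum_posLog_inv (transcendental_inv hx)
  rwa [inv_inv, adjoin_inv] at h

theorem product_formula_places [IsAlgClosed k] [IsCurveField k κ] {x : κ} (hx : x ≠ 0) :
    ∏ᶠ v : places k κ, v.val x = 1 := by
  rcases eq_algebraMap_or_transcendental (k := k) x with ⟨c, rfl⟩ | hx'
  · have hc : c ≠ 0 := by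
      rintro rfl
      exact hx (map_zero _)
    rw [← finprod_one (α := places k κ) (M := ℝ)]
    exact finprod_congr fun v => (IsPlace.apply_algebraMap v.2 hc)
  · have h1 := finsum_posLog hx'
    have h2 := finsum_posLog_inv hx'
    have hfs := hasFiniteMulSupport_places (k := k) hx
    have hpos : ∀ v : places k κ, 0 < v.val x := fun v => v.val.pos hx
    have h3 : ∑ᶠ v : places k κ, Real.log (v.val x) = 0 := by
      have h4 : ∀ v : places k κ, Real.log (v.val x) =
          Real.posLog (v.val x) - Real.posLog (v.val x⁻¹) := by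
        intro v
        rw [map_inv₀, Real.posLog_sub_posLog_inv]
      rw [finsum_congr h4, finsum_sub_distrib, h1, h2, sub_self]
      · refine hfs.subset fun v hv => ?_
        rw [mem_mulSupport]
        rw [mem_support] at hv
        contrapose! hv
        rw [hv]
        exact Real.posLog_one
      · refine hfs.subset fun v hv => ?_
        rw [mem_mulSupport]
        rw [mem_support] at hv
        contrapose! hv
        rw [map_inv₀, hv]
        simp
    have h5 : Real.log (∏ᶠ v : places k κ, v.val x) = 0 := by
      rw [Real.log_finprod hpos, h3]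
    have h6 : 0 < ∏ᶠ v : places k κ, v.val x :=
      finprod_induction (fun y : ℝ => 0 < y) one_pos (fun _ _ => mul_pos) hpos
    exact Real.eq_one_of_pos_of_log_eq_zero h6 h5

variable (k κ) in
/-- The family of normalised places of a function field of one variable over an algebraically
closed field is admissible in the sense of Mathlib's theory of heights. -/
@[reducible]
noncomputable def admissible [IsAlgClosed k] [IsCurveField k κ] : Height.AdmissibleAbsValues κ where
  archAbsVal := 0
  nonarchAbsVal := places k κ
  isNonarchimedean v hv := hv.nonarch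
  hasFiniteMulSupport hx := hasFiniteMulSupport_places hx
  product_formula hx := by
    rw [Multiset.map_zero, Multiset.prod_zero, one_mul]
    exact product_formula_places hx

/-- **The height of a non-constant function is its degree.** -/
theorem logHeight₁_eq_finrank [IsAlgClosed k] [IsCurveField k κ] {x : κ}
    (hx : Transcendental k x) :
    letI := admissible k κ
    Height.logHeight₁ x = Module.finrank k⟮x⟯ κ := by
  letI := admissible k κ
  rw [Height.logHeight₁_eq]
  show (Multiset.map _ (0 : Multiset (AbsoluteValue κ ℝ))).sum + _ = _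
  rw [Multiset.map_zero, Multiset.sum_zero, zero_add]
  exact finsum_posLog hx

theorem logHeight₁_algebraMap [IsAlgClosed k] [IsCurveField k κ] (c : k) :
    letI := admissible k κ
    Height.logHeight₁ (algebraMap k κ c) = 0 := by
  letI := admissible k κ
  rw [Height.logHeight₁_eq]
  show (Multiset.map _ (0 : Multiset (AbsoluteValue κ ℝ))).sum + _ = _
  rw [Multiset.map_zero, Multiset.sum_zero, zero_add]
  rw [← finsum_zero (α := places k κ) (M := ℝ)]
  refine finsum_congr fun v => ?_
  rw [Real.posLog_eq_zero_iff, abs_of_nonneg (v.val.nonneg _)]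
  exact IsPlace.apply_algebraMap_le v.2 c

end FFPlaces
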