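import Pool.Agent.Helper38.FF.Sep2

/-!
# Degree formula for arbitrary non-constant elements
-/

namespace FFPlaces

open IntermediateField Polynomial

variable {k κ : Type*} [Field k] [Field κ] [Algebra k κ]

theorem IsCurveField.isAlgebraic_adjoin [IsCurveField k κ] {x : κ} (hx : Transcendental k x) :
    Algebra.IsAlgebraic k⟮x⟯ κ := by
  have h1 : AlgebraicIndependent k (fun _ : Unit => x) :=
    algebraicIndependent_unique_type_iff.mpr hx
  have h2 : IsTranscendenceBasis k (fun _ : Unit => x) := by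
    apply h1.isTranscendenceBasis_of_lift_trdeg_le_of_finite
    rw [IsCurveField.trdeg_eq_one]
    simp
  have h3 := h2.isAlgebraic_field
  rwa [Set.range_const] at h3

theorem IsCurveField.finite_adjoin [IsCurveField k κ] {x : κ} (hx : Transcendental k x) :
    FiniteDimensional k⟮x⟯ κ := by
  have := IsCurveField.essFiniteType (k := k) (κ := κ)
  have := IsCurveField.isAlgebraic_adjoin hx
  have : Algebra.EssFiniteType k⟮x⟯ κ := Algebra.EssFiniteType.of_comp k k⟮x⟯ κ
  exact Algebra.finite_of_essFiniteType_of_isAlgebraic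

theorem exists_separating [PerfectField k] [IsCurveField k κ] :
    ∃ t : κ, Transcendental k t ∧ Algebra.IsSeparable k⟮t⟯ κ := by
  have := IsCurveField.essFiniteType (k := k) (κ := κ)
  obtain ⟨s, hs, hsep⟩ := exists_isTranscendenceBasis_and_isSeparable_of_perfectField k κ
  have h1 := hs.lift_cardinalMk_eq_trdeg
  rw [IsCurveField.trdeg_eq_one, Cardinal.mk_coe_finset] at h1
  have h2 : s.card = 1 := by
    simpa using h1
  obtain ⟨t, rfl⟩ := Finset.card_eq_one.mp h2
  refine ⟨t, ?_, ?_⟩
  · have h3 := hs.1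
    exact h3.transcendental ⟨t, Finset.mem_singleton_self t⟩
  · rwa [Finset.coe_singleton] at hsep

section CharP

variable (p : ℕ) [hp : Fact p.Prime] [CharP k p]

theorem subfield_eq_top_of_separating [PerfectField k] {t : κ} [Algebra.IsSeparable k⟮t⟯ κ]
    (L : Subfield κ) (hL : ∀ y : κ, y ^ p ∈ L) (htL : t ∈ L) : L = ⊤ := by
  have : ExpChar k p := .prime hp.out
  have hk : ∀ c : k, algebraMap k κ c ∈ L := by
    intro c
    have hc : (frobeniusEquiv k p).symm c ^ p = c := by
      exact frobeniusEquiv_symm_pow_p k p c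
    rw [← hc, map_pow]
    exact hL _
  let L1 : IntermediateField k κ := L.toIntermediateField hk
  have h1 : k⟮t⟯ ≤ L1 := by
    rw [adjoin_simple_le_iff]
    exact htL
  let L2 : IntermediateField k⟮t⟯ κ := L.toIntermediateField fun c => h1 c.2
  have : ExpChar k⟮t⟯ p := expChar_of_injective_algebraMap (algebraMap k k⟮t⟯).injective p
  have h2 := IntermediateField.adjoin_eq_adjoin_pow_expChar_of_isSeparable' k⟮t⟯ κ
    (Set.univ : Set κ) p
  have h3 : adjoin k⟮t⟯ (Set.univ : Set κ) = ⊤ := by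
    rw [eq_top_iff]
    intro y _
    exact subset_adjoin _ _ (Set.mem_univ y)
  have h4 : L2 = ⊤ := by
    rw [eq_top_iff, ← h3, h2, adjoin_le_iff]
    rintro _ ⟨y, -, rfl⟩
    exact hL y
  rw [eq_top_iff]
  intro y _
  have : y ∈ L2 := by rw [h4]; trivial
  exact this

theorem subfield_eq_top_of_not_pow [PerfectField k] [IsCurveField k κ]
    {x : κ} (hx : ∀ y : κ, y ^ p ≠ x)
    (L : Subfield κ) (hL : ∀ y : κ, y ^ p ∈ L) (hxL : x ∈ L) : L = ⊤ := by
  have : ExpChar k p := .prime hp.out
  have hκp : ExpChar κ p := expChar_of_injective_algebraMap (algebraMap k κ).injective p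
  obtain ⟨t, -, hsep⟩ := exists_separating (k := k) (κ := κ)
  let K0 : Subfield κ := (frobenius κ p).fieldRange
  have hK0 : ∀ y : κ, y ^ p ∈ K0 := fun y => ⟨y, rfl⟩
  have hxK0 : x ∉ K0 := by
    rintro ⟨y, hy⟩
    exact hx y hy
  have hle : K0 ≤ L := by
    rintro _ ⟨y, rfl⟩
    exact hL y
  have : ExpChar K0 p := (RingHom.expChar_iff (algebraMap K0 κ) (algebraMap K0 κ).injective p).mpr hκp
  -- `κ = K0(t)`
  have hKt : K0⟮t⟯ = ⊤ := by
    have h1 := subfield_eq_top_of_separating (k := k) p (t := t) (K0⟮t⟯).toSubfield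
      (fun y => by
        have : algebraMap K0 κ ⟨y ^ p, hK0 y⟩ ∈ K0⟮t⟯ := (K0⟮t⟯).algebraMap_mem _
        exact this) (mem_adjoin_simple_self K0 t)
    rw [eq_top_iff]
    intro y _
    have : y ∈ (K0⟮t⟯).toSubfield := by rw [h1]; trivial
    exact this
  have hint : ∀ y : κ, IsIntegral K0 y := fun y =>
    ⟨X ^ p - C (⟨y ^ p, hK0 y⟩ : K0), monic_X_pow_sub_C _ hp.out.ne_zero, by
      rw [eval₂_sub, eval₂_X_pow, eval₂_C, sub_eq_zero]
      rfl⟩
  have hfr : Module.finrank K0 κ ≤ p := by
    have h1 : Module.finrank K0 K0⟮t⟯ = (minpoly K0 t).natDegree := adjoin.finrank (hint t)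
    rw [hKt, finrank_top'] at h1
    rw [h1]
    have h2 : minpoly K0 t ∣ X ^ p - C (⟨t ^ p, hK0 t⟩ : K0) := by
      apply minpoly.dvd
      rw [map_sub, map_pow, aeval_X, aeval_C, sub_eq_zero]
      rfl
    have h3 := natDegree_le_of_dvd h2 (monic_X_pow_sub_C _ hp.out.ne_zero).ne_zero
    rwa [natDegree_X_pow_sub_C] at h3
  have : FiniteDimensional K0 κ := by
    have h1 := adjoin.finiteDimensional (hint t)
    rw [hKt] at h1
    exact IntermediateField.topEquiv.toLinearEquiv.finiteDimensional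
  have hpi : IsPurelyInseparable K0 κ := by
    rw [isPurelyInseparable_iff_pow_mem K0 p]
    intro y
    exact ⟨1, ⟨⟨y ^ p, hK0 y⟩, by rw [pow_one]; rfl⟩⟩
  have hxt : K0⟮x⟯ = ⊤ := by
    obtain ⟨n, y, hn⟩ := IsPurelyInseparable.minpoly_eq_X_pow_sub_C K0 p x
    have hn0 : n ≠ 0 := by
      rintro rfl
      have h1 := minpoly.aeval K0 x
      rw [hn, pow_zero, pow_one, map_sub, aeval_X, aeval_C, sub_eq_zero] at h1
      exact hxK0 (h1 ▸ y.2)
    have h1 : Module.finrank K0 K0⟮x⟯ = (minpoly K0 x).natDegree := adjoin.finrank (hint x)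
    rw [hn, natDegree_X_pow_sub_C] at h1
    apply IntermediateField.eq_of_le_of_finrank_le le_top
    rw [finrank_top', h1]
    exact hfr.trans (Nat.le_self_pow hn0 p)
  rw [eq_top_iff]
  intro y _
  have hy : y ∈ K0⟮x⟯ := by rw [hxt]; trivial
  let L' : IntermediateField K0 κ := L.toIntermediateField fun c => hle c.2
  have : K0⟮x⟯ ≤ L' := by
    rw [adjoin_simple_le_iff]
    exact hxL
  exact this hy

theorem subfield_eq_top_of_not_pow' [PerfectField k] [IsCurveField k κ]
    {x : κ} (hx : ∀ y : κ, y ^ p ≠ x) (m : ℕ)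
    (L : Subfield κ) (hL : ∀ y : κ, y ^ p ^ m ∈ L) (hxL : x ∈ L) : L = ⊤ := by
  have : ExpChar k p := .prime hp.out
  have hκp : ExpChar κ p := expChar_of_injective_algebraMap (algebraMap k κ).injective p
  induction m generalizing L with
  | zero =>
    rw [eq_top_iff]
    intro y _
    simpa using hL y
  | succ m ih =>
    refine subfield_eq_top_of_not_pow (k := k) p hx L (fun y => ?_) hxL
    have h1 : L.comap (frobenius κ p) = ⊤ := by
      apply ih
      · intro y
        show (y ^ p ^ m) ^ p ∈ L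
        rw [← pow_mul, ← pow_succ]
        exact hL y
      · show x ^ p ∈ L
        exact L.pow_mem hxL p
    have h2 : y ∈ L.comap (frobenius κ p) := by rw [h1]; trivial
    exact h2

theorem isSeparable_of_not_pow [PerfectField k] [IsCurveField k κ]
    {x : κ} (hxt : Transcendental k x) (hx : ∀ y : κ, y ^ p ≠ x) :
    Algebra.IsSeparable k⟮x⟯ κ := by
  have : ExpChar k p := .prime hp.out
  have := IsCurveField.finite_adjoin hxt
  have : ExpChar k⟮x⟯ p := expChar_of_injective_algebraMap (algebraMap k k⟮x⟯).injective p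
  rw [← separableClosure.eq_top_iff]
  have : ExpChar (separableClosure k⟮x⟯ κ) p :=
    expChar_of_injective_algebraMap (algebraMap k⟮x⟯ (separableClosure k⟮x⟯ κ)).injective p
  have hexp : IsPurelyInseparable.HasExponent (separableClosure k⟮x⟯ κ) κ := inferInstance
  obtain ⟨e, he⟩ := (IsPurelyInseparable.hasExponent_iff' _ _ p).mp hexp
  have h1 := subfield_eq_top_of_not_pow' (k := k) p hx e (separableClosure k⟮x⟯ κ).toSubfield
    (fun y => by
      obtain ⟨z, hz⟩ := he y
      rw [← hz]
      exact z.2)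
    (by
      have : algebraMap k⟮x⟯ κ (AdjoinSimple.gen k x) ∈ separableClosure k⟮x⟯ κ :=
        (separableClosure k⟮x⟯ κ).algebraMap_mem _
      exact this)
  rw [eq_top_iff]
  intro y _
  have : y ∈ (separableClosure k⟮x⟯ κ).toSubfield := by rw [h1]; trivial
  exact this

end CharP

end FFPlaces
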