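import Mathlib

/-!
# Places of function fields of curves over an algebraically closed field: basic definitions
-/

namespace FFPlaces

open Real

variable (k κ : Type*) [Field k] [Field κ] [Algebra k κ]

/-- `κ` is a function field of one variable over `k`: finitely generated as a field and of
transcendence degree one. -/
class IsCurveField : Prop where
  essFiniteType : Algebra.EssFiniteType k κ
  trdeg_eq_one : Algebra.trdeg k κ = 1

/-- A normalised place of `κ/k`: a non-archimedean absolute value, trivial on `k`, with value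
group `exp ℤ`. -/
structure IsPlace (v : AbsoluteValue κ ℝ) : Prop where
  nonarch : IsNonarchimedean v
  apply_algebraMap_le : ∀ c : k, v (algebraMap k κ c) ≤ 1
  exists_int : ∀ x : κ, x ≠ 0 → ∃ n : ℤ, v x = exp n
  exists_unif : ∃ t : κ, v t = exp (-1)

/-- The set of normalised places of `κ/k`. -/
def places : Set (AbsoluteValue κ ℝ) := {v | IsPlace k κ v}

variable {k κ}

namespace IsPlace

variable {v : AbsoluteValue κ ℝ} (hv : IsPlace k κ v)

include hv

theorem apply_algebraMap {c : k} (hc : c ≠ 0) : v (algebraMap k κ c) = 1 := by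
  refine le_antisymm (hv.apply_algebraMap_le c) ?_
  have h1 := hv.apply_algebraMap_le c⁻¹
  have h2 : v (algebraMap k κ c) * v (algebraMap k κ c⁻¹) = 1 := by
    rw [← map_mul, ← map_mul, mul_inv_cancel₀ hc, map_one, map_one]
  have h3 : 0 ≤ v (algebraMap k κ c) := v.nonneg _
  nlinarith

theorem add_le (x y : κ) : v (x + y) ≤ max (v x) (v y) := hv.nonarch x y

theorem sub_le (x y : κ) : v (x - y) ≤ max (v x) (v y) := by
  rw [sub_eq_add_neg, ← v.map_neg y]
  exact hv.nonarch x (-y)

theorem sum_le {ι : Type*} (s : Finset ι) (f : ι → κ) {B : ℝ} (hB : 0 ≤ B)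
    (h : ∀ i ∈ s, v (f i) ≤ B) : v (∑ i ∈ s, f i) ≤ B := by
  classical
  induction s using Finset.induction_on with
  | empty => simpa using hB
  | insert a s ha ih =>
    rw [Finset.sum_insert ha]
    exact (hv.add_le _ _).trans (max_le (h a (Finset.mem_insert_self a s))
      (ih fun i hi => h i (Finset.mem_insert_of_mem hi)))

/-- elements of absolute value at most one form a ring, closed under integral elements -/
theorem aeval_le {x : κ} (hx : v x ≤ 1) (f : Polynomial k) : v (Polynomial.aeval x f) ≤ 1 := by
  rw [Polynomial.aeval_eq_sum_range]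
  refine hv.sum_le _ _ zero_le_one fun i _ => ?_
  rw [Algebra.smul_def, map_mul, map_pow]
  exact mul_le_one₀ (hv.apply_algebraMap_le _) (pow_nonneg (v.nonneg _) _)
    (pow_le_one₀ (v.nonneg _) hx)

/-- an element integral over a subring contained in the valuation ring is in it -/
theorem le_one_of_isIntegral {A : Type*} [CommRing A] [Algebra A κ]
    (hA : ∀ a : A, v (algebraMap A κ a) ≤ 1) {y : κ} (hy : IsIntegral A y) : v y ≤ 1 := by
  obtain ⟨p, hp, hp0⟩ := hy
  by_contra hlt
  push Not at hlt
  have hpos : 0 < v y := lt_trans zero_lt_one hlt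
  rw [← Polynomial.aeval_def, Polynomial.aeval_eq_sum_range, Finset.sum_range_succ,
    hp.coeff_natDegree, one_smul, add_eq_zero_iff_eq_neg'] at hp0
  have h1 : v (y ^ p.natDegree) ≤ v y ^ (p.natDegree - 1) := by
    rw [hp0, v.map_neg]
    refine hv.sum_le _ _ (pow_nonneg hpos.le _) fun i hi => ?_
    rw [Algebra.smul_def, map_mul, map_pow]
    have hi' : i ≤ p.natDegree - 1 := by
      have := Finset.mem_range.mp hi
      omega
    calc v (algebraMap A κ (p.coeff i)) * v y ^ i ≤ 1 * v y ^ (p.natDegree - 1) :=
          mul_le_mul (hA _) (pow_le_pow_right₀ hlt.le hi') (pow_nonneg hpos.le _) zero_le_one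
      _ = _ := one_mul _
  rw [map_pow] at h1
  rcases Nat.eq_zero_or_pos p.natDegree with h0 | h0
  · rw [h0] at hp0
    simp at hp0
  · have : v y ^ (p.natDegree - 1) < v y ^ p.natDegree :=
      pow_lt_pow_right₀ hlt (by omega)
    exact absurd h1 (not_le.mpr this)

theorem exists_lt_one : ∃ t : κ, t ≠ 0 ∧ v t < 1 := by
  obtain ⟨t, ht⟩ := hv.exists_unif
  refine ⟨t, fun h => ?_, ?_⟩
  · rw [h, map_zero] at ht
    exact absurd ht.symm (exp_pos _).ne'
  · rw [ht]
    rw [exp_lt_one_iff]; norm_num

end IsPlace

end FFPlaces
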