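import Pool.Agent.Helper38.FF.Height

/-!
# Residues at places, and exact behaviour of heights under constant morphisms
-/

namespace FFPlaces

open IntermediateField Polynomial Function

variable {k κ : Type*} [Field k] [Field κ] [Algebra k κ]

namespace IsPlace

variable {v : AbsoluteValue κ ℝ} (hv : IsPlace k κ v)

include hv

/-- integral over an algebraic subextension: a place trivial on `k` is trivial on elements
algebraic over a field where it is trivial -/
theorem eq_one_of_isAlgebraic {A : Type*} [Field A] [Algebra A κ]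
    (hA : ∀ a : A, a ≠ 0 → v (algebraMap A κ a) = 1) {y : κ} (hy : IsAlgebraic A y) (hy0 : y ≠ 0) :
    v y = 1 := by
  have hA' : ∀ a : A, v (algebraMap A κ a) ≤ 1 := fun a => by
    rcases eq_or_ne a 0 with rfl | ha
    · simp
    · exact (hA a ha).le
  have h1 : v y ≤ 1 := hv.le_one_of_isIntegral hA' hy.isIntegral
  have h2 : v y⁻¹ ≤ 1 := hv.le_one_of_isIntegral hA' hy.inv.isIntegral
  rw [map_inv₀] at h2
  exact le_antisymm h1 ((inv_le_one₀ (v.pos hy0)).mp h2)

/-- A place is non-trivial on a transcendental element in the following sense: some nonzero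
polynomial in it has absolute value different from one. -/
theorem exists_aeval_ne_one [IsCurveField k κ] {x : κ} (hx : Transcendental k x) :
    ∃ f : k[X], f ≠ 0 ∧ v (aeval x f) ≠ 1 := by
  by_contra hcon
  push Not at hcon
  have hA : ∀ a : k⟮x⟯, a ≠ 0 → v (algebraMap k⟮x⟯ κ a) = 1 := by
    intro a ha
    obtain ⟨r, s, hrs⟩ := mem_adjoin_simple_iff k (a : κ) |>.mp a.2
    have ha' : (a : κ) ≠ 0 := fun h => ha (Subtype.ext h)
    have hr : r ≠ 0 := by
      rintro rfl
      rw [map_zero, zero_div] at hrs
      exact ha' hrs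
    have hs : s ≠ 0 := by
      rintro rfl
      rw [map_zero, div_zero] at hrs
      exact ha' hrs
    show v (a : κ) = 1
    rw [hrs, map_div₀, hcon r hr, hcon s hs, div_one]
  have halg := IsCurveField.isAlgebraic_adjoin hx
  obtain ⟨t, ht0, ht⟩ := hv.exists_lt_one
  have := hv.eq_one_of_isAlgebraic hA (halg.isAlgebraic t) ht0
  exact absurd this ht.ne

/-- **Residues.**  The residue field of a place is `k`. -/
theorem exists_residue [IsAlgClosed k] [IsCurveField k κ] {y : κ} (hy : v y ≤ 1) :
    ∃ c : k, v (y - algebraMap k κ c) < 1 := by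
  rcases eq_algebraMap_or_transcendental (k := k) y with ⟨c, rfl⟩ | hy'
  · exact ⟨c, by simp⟩
  · obtain ⟨f, hf0, hf⟩ := hv.exists_aeval_ne_one hy'
    have hf1 : v (aeval y f) < 1 := lt_of_le_of_ne (hv.aeval_le hy f) hf
    have hsplit := IsAlgClosed.splits f
    by_contra hcon
    push Not at hcon
    have hcon' : ∀ c : k, v (y - algebraMap k κ c) = 1 := fun c => by
      refine le_antisymm ?_ (hcon c)
      exact (hv.sub_le _ _).trans (max_le hy (hv.apply_algebraMap_le c))
    have h1 : aeval y f = algebraMap k κ f.leadingCoeff *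
        (f.roots.map fun a => y - algebraMap k κ a).prod := by
      conv_lhs => rw [hsplit.eq_prod_roots]
      rw [map_mul, aeval_C, map_multiset_prod, Multiset.map_map]
      congr 2
      refine Multiset.map_congr rfl fun a _ => ?_
      simp
    rw [h1, map_mul, hv.apply_algebraMap (leadingCoeff_ne_zero.mpr hf0), one_mul,
      map_multiset_prod, Multiset.map_map] at hf1
    have h2 : (f.roots.map (v ∘ fun a => y - algebraMap k κ a)) =
        f.roots.map (fun _ => (1 : ℝ)) := Multiset.map_congr rfl fun a _ => hcon' a
    rw [h2] at hf1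
    simp at hf1

end IsPlace

end FFPlaces
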