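import Pool.Agent.Helper38.FF.Residue

/-!
# Exact behaviour of heights under constant morphisms
-/

namespace FFPlaces

open Function

variable {k κ : Type*} [Field k] [Field κ] [Algebra k κ]

theorem aeval_smul_of_isHomogeneous {ι : Type*} {G : MvPolynomial ι k} {e : ℕ}
    (hG : G.IsHomogeneous e) (a : κ) (y : ι → κ) :
    MvPolynomial.aeval (a • y) G = a ^ e * MvPolynomial.aeval y G := by
  rw [MvPolynomial.aeval_def, MvPolynomial.aeval_def, MvPolynomial.eval₂_eq,
    MvPolynomial.eval₂_eq, Finset.mul_sum]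
  refine Finset.sum_congr rfl fun m hm => ?_
  have hm' : m.degree = e := by
    have := hG (MvPolynomial.mem_support_iff.mp hm)
    rwa [Finsupp.degree_eq_weight_one]
  have h1 : ∏ i ∈ m.support, (a • y) i ^ m i = a ^ e * ∏ i ∈ m.support, y i ^ m i := by
    simp only [Pi.smul_apply, smul_eq_mul, mul_pow]
    rw [Finset.prod_mul_distrib, Finset.prod_pow_eq_pow_sum, ← hm']
    rfl
  rw [h1]
  ring

namespace IsPlace

variable {v : AbsoluteValue κ ℝ} (hv : IsPlace k κ v) {ι ι' : Type*}

include hv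

theorem mvAeval_le {y : ι → κ} (hy : ∀ i, v (y i) ≤ 1) (G : MvPolynomial ι k) :
    v (MvPolynomial.aeval y G) ≤ 1 := by
  induction G using MvPolynomial.induction_on with
  | C a => simpa using hv.apply_algebraMap_le a
  | add p q hp hq =>
    rw [map_add]
    exact (hv.add_le _ _).trans (max_le hp hq)
  | mul_X p i hp =>
    rw [map_mul, map_mul, MvPolynomial.aeval_X]
    exact mul_le_one₀ hp (v.nonneg _) (hy i)

/-- reduction of a polynomial expression at a place -/
theorem mvAeval_sub_eval_lt {y : ι → κ} {c : ι → k}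
    (hyc : ∀ i, v (y i - algebraMap k κ (c i)) < 1) (G : MvPolynomial ι k) :
    v (MvPolynomial.aeval y G - algebraMap k κ (MvPolynomial.eval c G)) < 1 := by
  have hy : ∀ i, v (y i) ≤ 1 := fun i => by
    have h1 : y i = (y i - algebraMap k κ (c i)) + algebraMap k κ (c i) := by ring
    rw [h1]
    exact (hv.add_le _ _).trans (max_le (hyc i).le (hv.apply_algebraMap_le _))
  induction G using MvPolynomial.induction_on with
  | C a => simp
  | add p q hp hq =>
    have h1 : MvPolynomial.aeval y (p + q) - algebraMap k κ (MvPolynomial.eval c (p + q)) =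
        (MvPolynomial.aeval y p - algebraMap k κ (MvPolynomial.eval c p)) +
        (MvPolynomial.aeval y q - algebraMap k κ (MvPolynomial.eval c q)) := by
      simp only [map_add]
      ring
    rw [h1]
    exact (hv.add_le _ _).trans_lt (max_lt hp hq)
  | mul_X p i hp =>
    have h1 : MvPolynomial.aeval y (p * MvPolynomial.X i) -
        algebraMap k κ (MvPolynomial.eval c (p * MvPolynomial.X i)) =
        MvPolynomial.aeval y p * (y i - algebraMap k κ (c i)) +
        (MvPolynomial.aeval y p - algebraMap k κ (MvPolynomial.eval c p)) *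
          algebraMap k κ (c i) := by
      simp only [map_mul, MvPolynomial.aeval_X, MvPolynomial.eval_X]
      ring
    rw [h1]
    refine (hv.add_le _ _).trans_lt (max_lt ?_ ?_)
    · rw [map_mul]
      exact mul_lt_one_of_nonneg_of_lt_one_right (hv.mvAeval_le hy p) (v.nonneg _) (hyc i)
    · rw [map_mul]
      exact mul_lt_one_of_nonneg_of_lt_one_left (v.nonneg _) hp (hv.apply_algebraMap_le _)

/-- the residue point of a point with coordinates in `κ`: one can scale the coordinates such that
the maximum is one and reduce modulo the maximal ideal. -/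
theorem exists_reduction [IsAlgClosed k] [IsCurveField k κ] [Finite ι] {x : ι → κ} (hx : x ≠ 0) :
    ∃ (a : κ) (c : ι → k), a ≠ 0 ∧ c ≠ 0 ∧ v a = ⨆ i, v (x i) ∧
      ∀ i, v (a⁻¹ * x i - algebraMap k κ (c i)) < 1 := by
  obtain ⟨i1, hi1⟩ := Function.ne_iff.mp hx
  haveI : Nonempty ι := ⟨i1⟩
  obtain ⟨i0, hi0⟩ := exists_eq_ciSup_of_finite (f := fun i => v (x i))
  have hbdd : BddAbove (Set.range fun i => v (x i)) := Set.finite_range _ |>.bddAbove
  have hpos : 0 < v (x i0) := by
    rw [hi0]
    exact (v.pos hi1).trans_le (le_ciSup hbdd i1)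
  have hx0 : x i0 ≠ 0 := v.ne_zero_iff.mp hpos.ne'
  have hle : ∀ i, v ((x i0)⁻¹ * x i) ≤ 1 := fun i => by
    rw [map_mul, map_inv₀, inv_mul_le_iff₀ hpos, mul_one, hi0]
    exact le_ciSup hbdd i
  choose c hc using fun i => hv.exists_residue (hle i)
  refine ⟨x i0, c, hx0, ?_, hi0, hc⟩
  intro h0
  have h1 := hc i0
  rw [inv_mul_cancel₀ hx0, h0, Pi.zero_apply, map_zero, sub_zero, map_one] at h1
  exact absurd h1 (lt_irrefl _)

/-- **Local exact scaling.**  Homogeneous forms with constant coefficients and without common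
zeros on the closure of the point `x`. -/
theorem iSup_aeval_eq [IsAlgClosed k] [IsCurveField k κ] [Finite ι] [Finite ι'] {x : ι → κ}
    (hx : x ≠ 0) {d : ℕ} (F : ι' → MvPolynomial ι k) (hF : ∀ j, (F j).IsHomogeneous d)
    (hbp : ∀ c : ι → k, c ≠ 0 →
      (∀ (G : MvPolynomial ι k) (e : ℕ), G.IsHomogeneous e → MvPolynomial.aeval x G = 0 →
        MvPolynomial.eval c G = 0) → ∃ j, MvPolynomial.eval c (F j) ≠ 0) :
    ⨆ j, v (MvPolynomial.aeval x (F j)) = (⨆ i, v (x i)) ^ d := by
  obtain ⟨a, c, ha, hc0, hva, hc⟩ := hv.exists_reduction hx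
  have hscale : ∀ (G : MvPolynomial ι k) (e : ℕ), G.IsHomogeneous e →
      MvPolynomial.aeval x G = a ^ e * MvPolynomial.aeval (fun i => a⁻¹ * x i) G := by
    intro G e hG
    have h1 : x = a • (fun i => a⁻¹ * x i) := by
      ext i
      rw [Pi.smul_apply, smul_eq_mul, mul_inv_cancel_left₀ ha]
    conv_lhs => rw [h1]
    exact aeval_smul_of_isHomogeneous hG a _
  have hyle : ∀ i, v (a⁻¹ * x i) ≤ 1 := fun i => by
    have h1 : a⁻¹ * x i = (a⁻¹ * x i - algebraMap k κ (c i)) + algebraMap k κ (c i) := by ring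
    rw [h1]
    exact (hv.add_le _ _).trans (max_le (hc i).le (hv.apply_algebraMap_le _))
  obtain ⟨j, hj⟩ := hbp c hc0 fun G e hG hGx => by
    by_contra hne
    have h1 := hv.mvAeval_sub_eval_lt hc G
    rw [hscale G e hG, mul_eq_zero] at hGx
    rw [hGx.resolve_left (pow_ne_zero _ ha), zero_sub, v.map_neg, hv.apply_algebraMap hne] at h1
    exact absurd h1 (lt_irrefl _)
  have hj1 : v (MvPolynomial.aeval (fun i => a⁻¹ * x i) (F j)) = 1 := by
    refine le_antisymm (hv.mvAeval_le hyle _) ?_
    by_contra hcon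
    rw [not_le] at hcon
    have h1 := hv.mvAeval_sub_eval_lt hc (F j)
    have h2 := hv.sub_le (MvPolynomial.aeval (fun i => a⁻¹ * x i) (F j))
      (MvPolynomial.aeval (fun i => a⁻¹ * x i) (F j) -
        algebraMap k κ (MvPolynomial.eval c (F j)))
    rw [sub_sub_cancel, hv.apply_algebraMap hj] at h2
    exact absurd (h2.trans_lt (max_lt hcon h1)) (lt_irrefl _)
  haveI : Nonempty ι' := ⟨j⟩
  have hbdd : BddAbove (Set.range fun j => v (MvPolynomial.aeval x (F j))) :=
    Set.finite_range _ |>.bddAbove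
  rw [← hva]
  apply le_antisymm
  · refine ciSup_le fun j' => ?_
    rw [hscale _ d (hF j'), map_mul, map_pow]
    exact mul_le_of_le_one_right (pow_nonneg (v.nonneg _) _) (hv.mvAeval_le hyle _)
  · refine le_trans (le_of_eq ?_) (le_ciSup hbdd j)
    rw [hscale _ d (hF j), map_mul, map_pow, hj1, mul_one]

end IsPlace

/-- a nonconstant function has a zero -/
theorem exists_place_lt_one [IsAlgClosed k] [IsCurveField k κ] {x : κ} (hx : Transcendental k x) :
    ∃ v : AbsoluteValue κ ℝ, IsPlace k κ v ∧ v x < 1 := by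
  obtain ⟨s, hs, hsum⟩ := degree_formula x hx
  have h1 : s.Nonempty := by
    rw [Finset.nonempty_iff_ne_empty]
    rintro rfl
    rw [Finset.sum_empty] at hsum
    have := finrank_adjoin_pos hx
    have h2 : Module.finrank (IntermediateField.adjoin k {x}) κ = 0 := by exact_mod_cast hsum.symm
    omega
  obtain ⟨v, hv⟩ := h1
  exact ⟨v, (hs v).mp hv⟩

theorem exists_transcendental (k κ : Type*) [Field k] [Field κ] [Algebra k κ] [IsCurveField k κ] :
    ∃ x : κ, Transcendental k x := by
  have h1 : Algebra.trdeg k κ ≠ 0 := by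
    rw [IsCurveField.trdeg_eq_one]
    exact one_ne_zero
  rw [trdeg_ne_zero_iff] at h1
  exact h1.transcendental

/-- existence of places -/
theorem exists_isPlace (k κ : Type*) [Field k] [Field κ] [Algebra k κ] [IsAlgClosed k]
    [IsCurveField k κ] : ∃ v : AbsoluteValue κ ℝ, IsPlace k κ v := by
  obtain ⟨x, hx⟩ := exists_transcendental k κ
  obtain ⟨v, hv, -⟩ := exists_place_lt_one hx
  exact ⟨v, hv⟩

theorem hasFiniteMulSupport_iSup [IsAlgClosed k] [IsCurveField k κ] {ι : Type*} [Finite ι]
    {x : ι → κ} (hx : x ≠ 0) :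
    (fun v : places k κ => ⨆ i, v.val (x i)).HasFiniteMulSupport := by
  obtain ⟨i0, hi0⟩ := Function.ne_iff.mp hx
  haveI : Nonempty ι := ⟨i0⟩
  have h1 : (⋃ i : {i // x i ≠ 0}, (fun v : places k κ => v.val (x i)).mulSupport).Finite :=
    Set.finite_iUnion fun i => hasFiniteMulSupport_places (k := k) i.2
  refine h1.subset fun v hv => ?_
  rw [Set.mem_iUnion]
  by_contra hcon
  push Not at hcon
  refine hv ?_
  have h2 : ∀ i, x i ≠ 0 → v.val (x i) = 1 := fun i hi => by
    have := hcon ⟨i, hi⟩
    rwa [mem_mulSupport, not_not] at this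
  apply le_antisymm
  · refine ciSup_le fun i => ?_
    rcases eq_or_ne (x i) 0 with h | h
    · rw [h, map_zero]
      exact zero_le_one
    · exact (h2 i h).le
  · exact (h2 i0 hi0).ge.trans (le_ciSup (Set.finite_range fun i => v.val (x i)).bddAbove i0)

/-- **Exact scaling of heights.** -/
theorem logHeight_aeval_eq [IsAlgClosed k] [IsCurveField k κ] {ι ι' : Type*} [Finite ι] [Finite ι']
    {x : ι → κ} (hx : x ≠ 0) {d : ℕ} (F : ι' → MvPolynomial ι k)
    (hF : ∀ j, (F j).IsHomogeneous d)
    (hbp : ∀ c : ι → k, c ≠ 0 →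
      (∀ (G : MvPolynomial ι k) (e : ℕ), G.IsHomogeneous e → MvPolynomial.aeval x G = 0 →
        MvPolynomial.eval c G = 0) → ∃ j, MvPolynomial.eval c (F j) ≠ 0) :
    letI := admissible k κ
    Height.logHeight (fun j => MvPolynomial.aeval x (F j)) = d * Height.logHeight x := by
  letI := admissible k κ
  have hne : (fun j => MvPolynomial.aeval x (F j)) ≠ 0 := by
    intro h0
    obtain ⟨v, hv⟩ := exists_isPlace k κ
    have h1 := hv.iSup_aeval_eq hx F hF hbp
    have h2 : ⨆ j, v (MvPolynomial.aeval x (F j)) = 0 := by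
      have : ∀ j, v (MvPolynomial.aeval x (F j)) = 0 := fun j => by
        rw [congrFun h0 j, Pi.zero_apply, map_zero]
      simp only [this]
      exact Real.iSup_const_zero
    obtain ⟨i, hi⟩ := Function.ne_iff.mp hx
    haveI : Nonempty ι := ⟨i⟩
    have h3 : 0 < ⨆ i, v (x i) :=
      (v.pos hi).trans_le (le_ciSup (Set.finite_range fun i => v (x i)).bddAbove i)
    rw [h2] at h1
    exact absurd h1 (pow_pos h3 d).ne
  rw [Height.logHeight_eq_log_mulHeight, Height.logHeight_eq_log_mulHeight,
    Height.mulHeight_eq hne, Height.mulHeight_eq hx, ← Real.log_pow]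
  congr 1
  show (Multiset.map _ (0 : Multiset (AbsoluteValue κ ℝ))).prod * ∏ᶠ v : places k κ, _ =
    ((Multiset.map _ (0 : Multiset (AbsoluteValue κ ℝ))).prod * ∏ᶠ v : places k κ, _) ^ d
  rw [Multiset.map_zero, Multiset.map_zero, Multiset.prod_zero, one_mul, one_mul]
  have h1 : ∀ v : places k κ, ⨆ j, v.val (MvPolynomial.aeval x (F j)) =
      (⨆ i, v.val (x i)) ^ d := fun v => IsPlace.iSup_aeval_eq v.2 hx F hF hbp
  rw [finprod_congr h1, finprod_pow (hasFiniteMulSupport_iSup (k := k) hx)]

end FFPlaces
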