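import Pool.Agent.Helper38.FF.Separable

namespace FFPlaces

open Real IsDedekindDomain NNReal IntermediateField Polynomial
open scoped IntermediateField.algebraAdjoinAdjoin

variable {k κ : Type*} [Field k] [IsAlgClosed k] [Field κ] [Algebra k κ]

/-- **Degree formula for separating elements.** -/
theorem separable_formula (x : κ) (hx : Transcendental k x) [FiniteDimensional k⟮x⟯ κ]
    [Algebra.IsSeparable k⟮x⟯ κ] :
    ∃ s : Finset (AbsoluteValue κ ℝ), (∀ v, v ∈ s ↔ IsPlace k κ v ∧ v x < 1) ∧
      ∑ v ∈ s, -Real.log (v x) = Module.finrank k⟮x⟯ κ := by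
  classical
  let A := Algebra.adjoin k {x}
  let f : k[X] →ₐ[k] A := (aeval (⟨x, Algebra.self_mem_adjoin_singleton k x⟩ : A))
  have hfval : ∀ g : k[X], ((f g : A) : κ) = aeval x g := fun g => by
    have := Polynomial.aeval_algHom_apply A.val (⟨x, Algebra.self_mem_adjoin_singleton k x⟩ : A) g
    exact this.symm
  have hfsurj : Function.Surjective f := by
    rintro ⟨a, ha⟩
    have ha' : a ∈ (aeval x : k[X] →ₐ[k] κ).range := by
      rwa [← Algebra.adjoin_singleton_eq_range_aeval]
    obtain ⟨g, hg⟩ := ha'
    exact ⟨g, Subtype.ext ((hfval g).trans hg)⟩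
  have hfinj : Function.Injective f := by
    rw [injective_iff_map_eq_zero]
    intro g hg
    have h1 : aeval x g = 0 := by rw [← hfval, hg]; rfl
    exact (transcendental_iff.mp hx) g h1
  have hPID : IsPrincipalIdealRing A := IsPrincipalIdealRing.of_surjective f.toRingHom hfsurj
  let S := integralClosure A κ
  have hded : IsDedekindDomain S := integralClosure.isDedekindDomain A k⟮x⟯ κ
  have hfin : Module.Finite A S := IsIntegralClosure.finite A k⟮x⟯ κ S
  have hfrac : IsFractionRing S κ := integralClosure.isFractionRing_of_finite_extension k⟮x⟯ κ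
  have hfree : Module.Free A S := IsIntegralClosure.module_free A k⟮x⟯ κ S
  have hrank : Module.finrank A S = Module.finrank k⟮x⟯ κ :=
    IsIntegralClosure.rank A k⟮x⟯ κ S
  have hinjAS : Function.Injective (algebraMap A S) := fun a b h => by
    have h1 : (algebraMap S κ) (algebraMap A S a) = algebraMap S κ (algebraMap A S b) := by rw [h]
    exact Subtype.ext h1
  have hfaith : FaithfulSMul A S := (faithfulSMul_iff_algebraMap_injective A S).mpr hinjAS
  let t : A := ⟨x, Algebra.self_mem_adjoin_singleton k x⟩
  have htX : f X = t := by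
    show aeval _ X = _
    rw [aeval_X]
  have ht0 : t ≠ 0 := fun h => hx (by
    have : x = 0 := congrArg Subtype.val h
    rw [this]
    exact isAlgebraic_zero)
  have hres : ∀ a : A, ∃ c : k, a - algebraMap k A c ∈ Ideal.span {t} := by
    intro a
    obtain ⟨g, rfl⟩ := hfsurj a
    refine ⟨g.coeff 0, ?_⟩
    rw [← f.commutes, ← map_sub, Ideal.mem_span_singleton, ← htX]
    exact map_dvd f (X_dvd_sub_C (p := g))
  have hmax : (Ideal.span {t}).IsMaximal := by
    rw [Ideal.isMaximal_iff]
    constructor
    · rw [Ideal.mem_span_singleton]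
      rintro ⟨a, ha⟩
      obtain ⟨g, rfl⟩ := hfsurj a
      rw [← htX, ← map_mul, ← map_one f] at ha
      have := hfinj ha
      have h2 : IsUnit (X : k[X]) := IsUnit.of_mul_eq_one _ this.symm
      exact Polynomial.not_isUnit_X h2
    · intro J a hJ ha haJ
      obtain ⟨c, hc⟩ := hres a
      have hc0 : c ≠ 0 := by
        rintro rfl
        rw [map_zero, sub_zero] at hc
        exact ha hc
      have h1 : algebraMap k A c ∈ J := by
        have := J.sub_mem haJ (hJ hc)
        rwa [sub_sub_cancel] at this
      have h2 := J.mul_mem_left (algebraMap k A c⁻¹) h1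
      rwa [← map_mul, inv_mul_cancel₀ hc0, map_one] at h2
  obtain ⟨s, hs, hsum⟩ := sum_primes_eq_finrank (k := k) (A := A) (S := S) (κ := κ) t ht0 hmax hres
  have hinjP : ∀ P Q : HeightOneSpectrum S, primeAbv κ P = primeAbv κ Q → P = Q := by
    intro P Q h
    ext a
    rw [← primeAbv_algebraMap_lt_one_iff (κ := κ), ← primeAbv_algebraMap_lt_one_iff (κ := κ), h]
  refine ⟨s.image (primeAbv κ), fun v => ?_, ?_⟩
  · rw [Finset.mem_image]
    constructor
    · rintro ⟨P, hP, rfl⟩
      refine ⟨isPlace_primeAbv P, ?_⟩
      have := (primeAbv_algebraMap_lt_one_iff (κ := κ) P (algebraMap A S t)).mpr ((hs P).mp hP)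
      exact this
    · rintro ⟨hv, hvx⟩
      have hA : ∀ a : A, v (algebraMap A κ a) ≤ 1 := by
        intro a
        obtain ⟨g, rfl⟩ := hfsurj a
        have : algebraMap A κ (f g) = aeval x g := hfval g
        rw [this]
        exact hv.aeval_le hvx.le g
      have hSv : ∀ a : S, v (algebraMap S κ a) ≤ 1 := fun a =>
        hv.le_one_of_isIntegral hA a.2
      let P : Ideal S :=
        { carrier := {a | v (algebraMap S κ a) < 1}
          add_mem' := fun {a b} ha hb => by
            simp only [Set.mem_ofPred_eq, map_add] at ha hb ⊢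
            exact (hv.add_le _ _).trans_lt (max_lt ha hb)
          zero_mem' := by simp
          smul_mem' := fun c a ha => by
            simp only [Set.mem_ofPred_eq, smul_eq_mul, map_mul] at ha ⊢
            calc v (algebraMap S κ c) * v (algebraMap S κ a)
                ≤ 1 * v (algebraMap S κ a) := mul_le_mul_of_nonneg_right (hSv c) (v.nonneg _)
              _ < 1 := by rwa [one_mul] }
      have hPmem : ∀ a : S, a ∈ P ↔ v (algebraMap S κ a) < 1 := fun a => Iff.rfl
      have hPprime : P.IsPrime := by
        refine ⟨fun h => ?_, fun {a b} hab => ?_⟩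
        · have : (1 : S) ∈ P := h ▸ Submodule.mem_top
          rw [hPmem, map_one, map_one] at this
          exact lt_irrefl _ this
        · rw [hPmem, map_mul, map_mul] at hab
          by_contra hcon
          push Not at hcon
          rw [hPmem, hPmem, not_lt, not_lt] at hcon
          have : 1 ≤ v (algebraMap S κ a) * v (algebraMap S κ b) :=
            one_le_mul_of_one_le_of_one_le hcon.1 hcon.2
          exact absurd hab (not_lt.mpr this)
      have htP : algebraMap A S t ∈ P := hvx
      have hP0 : P ≠ ⊥ := by
        intro h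
        rw [h, Ideal.mem_bot] at htP
        exact ht0 (hinjAS (by rw [htP, map_zero]))
      let P' : HeightOneSpectrum S := ⟨P, hPprime, hP0⟩
      refine ⟨P', (hs P').mpr htP, ?_⟩
      exact (hv.eq_primeAbv hSv P' fun a => Iff.rfl).symm
  · rw [Finset.sum_image fun P _ Q _ h => hinjP P Q h, ← hrank, ← hsum]
    rfl

end FFPlaces
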