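import Pool.Agent.Helper38.FF.Dedekind

/-!
# The degree formula for separating elements
-/

namespace FFPlaces

open Real IsDedekindDomain NNReal IntermediateField Polynomial
open scoped IntermediateField.algebraAdjoinAdjoin

section General

/-- **Degree formula, Dedekind version.** -/
theorem sum_primes_eq_finrank {k A S κ : Type*} [Field k] [IsAlgClosed k] [CommRing A] [IsDomain A]
    [Algebra k A] [CommRing S] [IsDedekindDomain S] [Algebra A S] [Module.Finite A S]
    [Module.Flat A S] [FaithfulSMul A S]
    [Field κ] [Algebra S κ] [IsFractionRing S κ]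
    (t : A) (ht : t ≠ 0) (hmax : (Ideal.span {t}).IsMaximal)
    (hres : ∀ a : A, ∃ c : k, a - algebraMap k A c ∈ Ideal.span {t}) :
    ∃ s : Finset (HeightOneSpectrum S),
      (∀ P, P ∈ s ↔ algebraMap A S t ∈ P.asIdeal) ∧
      ∑ P ∈ s, -Real.log (primeAbv κ P (algebraMap S κ (algebraMap A S t))) =
        Module.finrank A S := by
  classical
  set p : Ideal A := Ideal.span {t} with hp
  have hp0 : p ≠ ⊥ := by rwa [hp, Ne, Ideal.span_singleton_eq_bot]
  have htS : algebraMap A S t ≠ 0 := by
    rwa [Ne, FaithfulSMul.algebraMap_eq_zero_iff]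
  have hmapp : p.map (algebraMap A S) = Ideal.span {algebraMap A S t} := by
    rw [hp, Ideal.map_span, Set.image_singleton]
  have hfin : (p.primesOver S).Finite := Algebra.QuasiFinite.finite_primesOver p
  have : Fintype (p.primesOver S) := hfin.fintype
  have hfund := Ideal.sum_ramification_inertia_eq_finrank p S
  -- the primes over `p` as height one primes
  let F : p.primesOver S → HeightOneSpectrum S := fun q =>
    ⟨q.1, q.2.1, by
      have := q.2.2
      exact Ideal.ne_bot_of_liesOver_of_ne_bot hp0 q.1⟩
  have hFinj : Function.Injective F := fun q q' h => Subtype.ext (congrArg HeightOneSpectrum.asIdeal h)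
  refine ⟨Finset.univ.image F, fun P => ?_, ?_⟩
  · rw [Finset.mem_image]
    constructor
    · rintro ⟨q, -, rfl⟩
      have := q.2.2
      have : p ≤ q.1.under A := (q.1.over_def p).le
      exact this (Ideal.mem_span_singleton_self t)
    · intro h
      refine ⟨⟨P.asIdeal, P.isPrime, ⟨?_⟩⟩, Finset.mem_univ _, rfl⟩
      refine hmax.eq_of_le (Ideal.IsPrime.under A P.asIdeal).ne_top ?_
      rw [hp, Ideal.span_singleton_le_iff_mem]
      exact h
  · rw [Finset.sum_image fun q _ q' _ h => hFinj h, ← hfund]
    push_cast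
    refine Finset.sum_congr rfl fun q _ => ?_
    rw [neg_log_primeAbv_algebraMap _ htS]
    have := q.2.1
    have := q.2.2
    have hmap0 : p.map (algebraMap A S) ≠ ⊥ := by
      rw [hmapp, Ne, Ideal.span_singleton_eq_bot]
      exact htS
    have he : q.1.ramificationIdx A = multiplicity q.1 (Ideal.span {algebraMap A S t}) := by
      rw [Ideal.IsDedekindDomain.ramificationIdx_eq_multiplicity p q.1 hmap0, hmapp]
    have hq0 : q.1 ≠ ⊥ := (F q).ne_bot
    have : q.1.IsMaximal := q.2.1.isMaximal hq0
    have hf : q.1.inertiaDeg A = 1 := by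
      rw [Ideal.inertiaDeg_eq_of_isMaximal p q.1]
      -- `A ⧸ p = k` is algebraically closed
      let : Field (A ⧸ p) := Ideal.Quotient.field p
      let : Field (S ⧸ q.1) := Ideal.Quotient.field q.1
      have hbij : Function.Bijective (algebraMap k (A ⧸ p)) := by
        refine ⟨(algebraMap k (A ⧸ p)).injective, fun y => ?_⟩
        obtain ⟨a, rfl⟩ := Ideal.Quotient.mk_surjective y
        obtain ⟨c, hc⟩ := hres a
        refine ⟨c, ?_⟩
        rw [IsScalarTower.algebraMap_apply k A (A ⧸ p), Ideal.Quotient.algebraMap_eq]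
        exact (Ideal.Quotient.eq.mpr (by
          have := Ideal.neg_mem_iff _ |>.mpr hc
          rwa [neg_sub] at this))
      have hint1 : (algebraMap k (A ⧸ p)).IsIntegral := fun y => by
        obtain ⟨c, rfl⟩ := hbij.2 y
        exact RingHom.isIntegralElem_map _
      have hint2 : (algebraMap (A ⧸ p) (S ⧸ q.1)).IsIntegral :=
        algebraMap_isIntegral_iff.mpr inferInstance
      let : Algebra k (S ⧸ q.1) := ((algebraMap (A ⧸ p) (S ⧸ q.1)).comp
        (algebraMap k (A ⧸ p))).toAlgebra
      have : Algebra.IsIntegral k (S ⧸ q.1) :=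
        algebraMap_isIntegral_iff.mp (RingHom.IsIntegral.trans _ _ hint1 hint2)
      have hb := IsAlgClosed.algebraMap_bijective_of_isIntegral (k := k) (K := S ⧸ q.1)
      exact (finrank_eq_one_iff_of_nonzero' (1 : S ⧸ q.1) one_ne_zero).mpr fun w => by
        obtain ⟨c, hc⟩ := hb.2 w
        exact ⟨algebraMap k (A ⧸ p) c, by rw [← hc, Algebra.smul_def, mul_one]; rfl⟩
    rw [hf, Nat.cast_one, mul_one, he]

end General

end FFPlaces
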